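import Pool.Agent.U62.NG.Fib
import Pool.Agent.U62.CL.Crit

/-!
# The analytic series of Nagao of random fibrations with marked sections on the critical line

For the fibrations `Y² = f(X, T)` over the affine `T`-line, monic of degree `2 g + 1` in `X`, with `r ≤ 2 g - 1` marked sections
over `X = ξ_1, ..., ξ_r` and random integer coefficients, the partial sums over `p ≤ T` of the series
`∑ (𝔄_p + r) log p / p ^ s` at different points `s = 1/2 + i t_j` of the critical line are, for coefficients up to a large power of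
`T`, asymptotically independent complex Gaussian variables of size `(log T) / 2`.
-/

set_option autoImplicit false

namespace Pool.Agent.Results.MP_3d3918_nt.CriticalLine

open Finset ProbabilityTheory

/-- The indices of the coefficients: the polynomials `C_k`, `k < m`, and `η_i`, `i < r`, of degree at most `n` in `t`. -/
abbrev Index (m r n : ℕ) : Type := (Fin m ⊕ Fin r) × Fin (n + 1)

variable {m r n : ℕ}

/-- The value at `t` of the polynomial with the index `k` (`C_k(t)` or `η_k(t)`). -/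
def coeff {R : Type} [CommRing R] (c : Index m r n → R) (k : Fin m ⊕ Fin r) (t : R) : R := ∑ j, c (k, j) * t ^ (j : ℕ)

/-- The equation of the fibration `Y² = rhs ξ c t X`:
`∏ (X - ξ_i) (X ^ m + ∑ C_k(t) X ^ k) + ∑_i ∏_{j ≠ i} (ξ_i - ξ_j) ∏_{j ≠ i} (X - ξ_j) η_i(t) ^ 2`. -/
def rhs {R : Type} [CommRing R] (ξ : Fin r → R) (c : Index m r n → R) (t x : R) : R :=
  (∏ i, (x - ξ i)) * (x ^ m + ∑ k : Fin m, coeff c (Sum.inl k) t * x ^ (k : ℕ)) +
    ∑ i, (∏ j ∈ univ.erase i, (ξ i - ξ j)) * (∏ j ∈ univ.erase i, (x - ξ j)) * coeff c (Sum.inr i) t ^ 2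

/-- The number of the solutions modulo `p` of the equation of the fibre over `t`. -/
noncomputable def points (ξ : Fin r → ℤ) (c : Index m r n → ℤ) (p t : ℕ) : ℕ :=
  Nat.card {P : ZMod p × ZMod p // P.2 ^ 2 = rhs (fun i => (ξ i : ZMod p)) (fun k => (c k : ZMod p)) (t : ZMod p) P.1}

/-- The fibre average `𝔄_p`: the mean over `t` modulo `p` of the trace of Frobenius `p + 1 - #X_t(F_p)` of the fibre (with one point at
infinity). -/
noncomputable def fibreAverage (ξ : Fin r → ℤ) (c : Index m r n → ℤ) (p : ℕ) : ℝ :=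
  (∑ t ∈ range p, (((p : ℝ) + 1) - ((points ξ c p t : ℝ) + 1))) / p

/-- The primes up to `T`. -/
def primesUpTo (T : ℕ) : Finset ℕ := (range (T + 1)).filter Nat.Prime

/-- The partial sum `∑_{p ≤ T} 𝔄_p log p / p ^ s` of the series of the analytic conjecture. -/
noncomputable def nagaoSeries (ξ : Fin r → ℤ) (c : Index m r n → ℤ) (T : ℕ) (s : ℂ) : ℂ :=
  ∑ p ∈ primesUpTo T, (fibreAverage ξ c p : ℂ) * (Real.log p : ℂ) * (p : ℂ) ^ (-s)

/-- The partial sum `∑_{p ≤ T} log p / p ^ s` (of a series with the residue one at `s = 1`). -/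
noncomputable def primeSeries (T : ℕ) (s : ℂ) : ℂ := ∑ p ∈ primesUpTo T, (Real.log p : ℂ) * (p : ℂ) ^ (-s)

/-- The proportion of the integer vectors `c` with coordinates of absolute value at most `H` which have the property `Q`. -/
noncomputable def proportion (H : ℕ) (Q : (Index m r n → ℤ) → Prop) : ℝ :=
  ({c : Index m r n → ℤ | (∀ i, |c i| ≤ H) ∧ Q c}.ncard : ℝ) / (2 * H + 1 : ℝ) ^ ((m + r) * (n + 1))

/-- The distribution function of the standard normal law. -/
noncomputable def normal (u : ℝ) : ℝ := (gaussianReal 0 1).real (Set.Iic u)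

theorem card_index : Fintype.card (Index m r n) = (m + r) * (n + 1) := by
  simp [Index, Fintype.card_prod, Fintype.card_sum]

open Pool.Agent.U62.NG in
theorem rhs_eq {R : Type} [CommRing R] (ξ : Fin r → R) (c : Index m r n → R) (t x : R) :
    rhs ξ c t x = Fv ξ (fun k => coeff c k t) x := rfl

open Pool.Agent.U62.NG Pool.Agent.N647.NG in
theorem points_eq (ξ : Fin r → ℤ) (c : Index m r n → ℤ) (p t : ℕ) [hp : Fact p.Prime] (h2 : p ≠ 2) :
    (points ξ c p t : ℝ) = p + sv (fun i => ((ξ i : ℤ) : ZMod p))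
      (vt (Pool.Agent.Y722.HS.red p c) (t : ZMod p)) := by
  have hr : ringChar (ZMod p) ≠ 2 := by rwa [ZMod.ringChar_zmod_n]
  unfold points
  have e1 : {P : ZMod p × ZMod p // P.2 ^ 2 = rhs (fun i => (ξ i : ZMod p)) (fun k => (c k : ZMod p)) (t : ZMod p) P.1} ≃
      Σ x : ZMod p, {y : ZMod p // y ^ 2 = rhs (fun i => (ξ i : ZMod p)) (fun k => (c k : ZMod p)) (t : ZMod p) x} :=
    { toFun := fun P => ⟨P.1.1, P.1.2, P.2⟩
      invFun := fun Q => ⟨(Q.1, Q.2.1), Q.2.2⟩
      left_inv := fun _ => rfl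
      right_inv := fun _ => rfl }
  rw [Nat.card_congr e1, Nat.card_sigma]
  push_cast
  simp only [card_sqrt hr]
  rw [Finset.sum_add_distrib, Finset.sum_const, card_univ, ZMod.card, nsmul_eq_mul, mul_one]
  rfl

theorem sq_two : ∀ y : ZMod 2, y ^ 2 = y := by decide

theorem points_two (ξ : Fin r → ℤ) (c : Index m r n → ℤ) (t : ℕ) : points ξ c 2 t = 2 := by
  unfold points
  have e1 : {P : ZMod 2 × ZMod 2 // P.2 ^ 2 = rhs (fun i => (ξ i : ZMod 2)) (fun k => (c k : ZMod 2)) (t : ZMod 2) P.1} ≃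
      ZMod 2 :=
    { toFun := fun P => P.1.1
      invFun := fun x => ⟨(x, rhs (fun i => (ξ i : ZMod 2)) (fun k => (c k : ZMod 2)) (t : ZMod 2) x), sq_two _⟩
      left_inv := fun P => by
        apply Subtype.ext
        apply Prod.ext
        · rfl
        · show rhs _ _ _ P.1.1 = P.1.2
          rw [← P.2, sq_two]
      right_inv := fun _ => rfl }
  rw [Nat.card_congr e1, Nat.card_zmod]

open Pool.Agent.U62.NG in
theorem average_eq (ξ : Fin r → ℤ) (c : Index m r n → ℤ) (p : ℕ) (hp : p.Prime) :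
    fibreAverage ξ c p = UU (D := n + 1) ξ p (Pool.Agent.Y722.HS.red p c) := by
  unfold fibreAverage
  by_cases h2 : p = 2
  · subst h2
    simp only [points_two]
    unfold UU
    rw [dif_neg (fun h => h.2 rfl)]
    norm_num
  · have : Fact p.Prime := ⟨hp⟩
    rw [UU_eq ξ p h2]
    congr 1
    have e : ∀ t : ℕ, (((p : ℝ) + 1) - ((points ξ c p t : ℝ) + 1)) =
        -(sv (fun i => ((ξ i : ℤ) : ZMod p)) (vt (Pool.Agent.Y722.HS.red p c) (t : ZMod p))) := by
      intro t
      rw [points_eq ξ c p t h2]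
      ring
    simp only [e]
    rw [Finset.sum_neg_distrib]
    congr 1
    refine Finset.sum_bij (fun t _ => (t : ZMod p)) (fun _ _ => mem_univ _) ?_ ?_ fun _ _ => rfl
    · intro a ha b hb hab
      rw [ZMod.natCast_eq_natCast_iff] at hab
      exact Nat.ModEq.eq_of_lt_of_lt hab (mem_range.1 ha) (mem_range.1 hb)
    · intro z _
      exact ⟨z.val, mem_range.2 (ZMod.val_lt z), ZMod.natCast_zmod_val z⟩

/-- **The joint normal law on the critical line.** Let `m ≥ 2`, `m + r = 2 g + 1`, `n ≥ 3`, and let `ξ_1, ..., ξ_r` be different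
integers. The fibration `Y² = rhs ξ c T X` has the sections `X = ξ_i`, `Y = ∏_{j ≠ i} (ξ_i - ξ_j) η_i(T)`. For all different
`t_1, ..., t_k > 0`, all real `x_j`, `y_j` and `ε > 0` there is a `K` such that for `T ≥ K` and `H ≥ T ^ K` the proportion of the integer
coefficients `|c_i| ≤ H` such that for all `j`, at `s = 1/2 + i t_j`,
`Re (∑_{p ≤ T} 𝔄_p log p / p ^ s + r ∑_{p ≤ T} log p / p ^ s) ≤ x_j (log T) / 2` and `Im (...) ≤ y_j (log T) / 2`
differs from `∏ Φ(x_j) Φ(y_j)` by at most `ε`. -/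
theorem result (m r n g : ℕ) (hm : 2 ≤ m) (hg : m + r = 2 * g + 1) (hn : 3 ≤ n) (ξ : Fin r → ℤ)
    (hξ : Function.Injective ξ) :
    (∀ (c : Index m r n → ℤ) (t : ℤ) (i : Fin r),
      ((∏ j ∈ univ.erase i, (ξ i - ξ j)) * coeff c (Sum.inr i) t) ^ 2 = rhs ξ c t (ξ i)) ∧
    (∀ (k : ℕ) (t x y : Fin k → ℝ) (ε : ℝ), (∀ j, 0 < t j) → Function.Injective t → 0 < ε →
      ∃ K : ℕ, ∀ T H : ℕ, K ≤ T → T ^ K ≤ H →
        |proportion H (fun c : Index m r n → ℤ => ∀ j,
          (nagaoSeries ξ c T (1 / 2 + t j * Complex.I) + r * primeSeries T (1 / 2 + t j * Complex.I)).re ≤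
            x j * (Real.log T / 2) ∧
          (nagaoSeries ξ c T (1 / 2 + t j * Complex.I) + r * primeSeries T (1 / 2 + t j * Complex.I)).im ≤
            y j * (Real.log T / 2)) - ∏ j, (normal (x j) * normal (y j))| ≤ ε) := by
  obtain ⟨C, hC⟩ := Pool.Agent.U62.NG.ld_UU (D := n + 1) (by omega) hm hg hξ
  refine ⟨fun c t i => ?_, fun k t x y ε ht hinj hε => ?_⟩
  · rw [rhs_eq, Pool.Agent.U62.NG.Fv_mark]
    rfl
  · obtain ⟨K, hK⟩ := Pool.Agent.U62.CL.critical hC ht hinj x y hε
    refine ⟨K, fun T H hT hH => ?_⟩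
    have h := hK T H hT hH
    rw [card_index] at h
    refine le_trans (le_of_eq ?_) h
    unfold proportion normal
    congr 3
    congr 2
    ext c
    simp only [Set.mem_ofPred_eq]
    refine and_congr_right fun _ => forall_congr' fun j => ?_
    have e : nagaoSeries ξ c T (1 / 2 + t j * Complex.I) + r * primeSeries T (1 / 2 + t j * Complex.I) =
        Pool.Agent.U62.CL.DD (Pool.Agent.U62.NG.UU (D := n + 1) ξ) (-r) T (t j) c := by
      unfold nagaoSeries primeSeries Pool.Agent.U62.CL.DD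
      rw [Finset.mul_sum, ← Finset.sum_add_distrib]
      refine Finset.sum_congr rfl fun p hp => ?_
      rw [average_eq ξ c p (Finset.mem_filter.1 hp).2]
      push_cast
      ring
    rw [e]

end Pool.Agent.Results.MP_3d3918_nt.CriticalLine
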