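import Pool.Agent.U62.NG.Fin
import Pool.Agent.U581.WW.CritMain

/-!
# The analytic series of Nagao of random fibrations on the critical line as processes: independent Brownian motions

For the fibrations `Y² = f(X, T)` over the affine `T`-line, monic of degree `2 g + 1` in `X`, with `r ≤ 2 g - 1` marked sections
over `X = ξ_1, ..., ξ_r` and random integer coefficients we consider the partial sums
`D_x(s) = ∑_{p ≤ x} (𝔄_p + r) log p / p ^ s`, `x ≤ T`, of the series of the analytic conjecture (without its expected polar part) at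
the point `s = 1/2` and at the points `s = 1/2 + i t_j`, `t_j > 0`, of the critical line, as functions of
`(log x / log T)²`. The theorem: for `T → ∞`, `log H / log T → ∞` the real functions `√2 D_x(1/2) / log T`,
`2 Re D_x(1/2 + i t_j) / log T`, `2 Im D_x(1/2 + i t_j) / log T` converge in distribution, in the space of the tuples of
continuous functions on `[0, 1]`, to independent Brownian motions.
-/

set_option autoImplicit false

namespace Pool.Agent.Results.MP_3d3918_nt.CriticalLineProcess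

open Finset MeasureTheory ProbabilityTheory
open scoped BoundedContinuousFunction NNReal

/-- The indices of the coefficients: the polynomials `C_k`, `k < m`, and `η_i`, `i < r`, of degree at most `n` in `t`. -/
abbrev Index (m r n : ℕ) : Type := (Fin m ⊕ Fin r) × Fin (n + 1)

variable {m r n : ℕ}

/-- The value at `t` of the polynomial with the index `k` (`C_k(t)` or `η_k(t)`). -/
def coeff {R : Type} [CommRing R] (c : Index m r n → R) (k : Fin m ⊕ Fin r) (t : R) : R := ∑ j, c (k, j) * t ^ (j : ℕ)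

/-- The equation of the fibration `Y² = rhs ξ c t X`:
`∏ (X - ξ_i) (X ^ m + ∑ C_k(t) X ^ k) + ∑_i ∏_{j ≠ i} (ξ_i - ξ_j) ∏_{j ≠ i} (X - ξ_j) η_i(t) ^ 2`. -/
def rhs {R : Type} [CommRing R] (ξ : Fin r → R) (c : Index m r n → R) (t x : R) : R :=
  (∏ i, (x - ξ i)) * (x ^ m + ∑ k : Fin m, coeff c (Sum.inl k) t * x ^ (k : ℕ)) +
    ∑ i, (∏ j ∈ univ.erase i, (ξ i - ξ j)) * (∏ j ∈ univ.erase i, (x - ξ j)) * coeff c (Sum.inr i) t ^ 2

/-- The number of the solutions modulo `p` of the equation of the fibre over `t`. -/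
noncomputable def points (ξ : Fin r → ℤ) (c : Index m r n → ℤ) (p t : ℕ) : ℕ :=
  Nat.card {P : ZMod p × ZMod p // P.2 ^ 2 = rhs (fun i => (ξ i : ZMod p)) (fun k => (c k : ZMod p)) (t : ZMod p) P.1}

/-- The fibre average `𝔄_p`: the mean over `t` modulo `p` of the trace of Frobenius `p + 1 - #X_t(F_p)` of the fibre (with one point at
infinity). -/
noncomputable def fibreAverage (ξ : Fin r → ℤ) (c : Index m r n → ℤ) (p : ℕ) : ℝ :=
  (∑ t ∈ range p, (((p : ℝ) + 1) - ((points ξ c p t : ℝ) + 1))) / p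

/-- The primes up to `x`. -/
def primesUpTo (x : ℕ) : Finset ℕ := (range (x + 1)).filter Nat.Prime

/-- The partial sum `∑_{p ≤ x} 𝔄_p log p / p ^ s` of the series of the analytic conjecture. -/
noncomputable def nagaoSeries (ξ : Fin r → ℤ) (c : Index m r n → ℤ) (x : ℕ) (s : ℂ) : ℂ :=
  ∑ p ∈ primesUpTo x, (fibreAverage ξ c p : ℂ) * (Real.log p : ℂ) * (p : ℂ) ^ (-s)

/-- The partial sum `∑_{p ≤ x} log p / p ^ s` (of a series with the residue one at `s = 1`). -/
noncomputable def primeSeries (x : ℕ) (s : ℂ) : ℂ := ∑ p ∈ primesUpTo x, (Real.log p : ℂ) * (p : ℂ) ^ (-s)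

/-- The normalised deviations `D_x(s)`, `s = 1/2 + i t`, of the partial sums: `√2 D_x(1/2)` for the index `none`, and
`2 Re D_x(1/2 + i t_j)`, `2 Im D_x(1/2 + i t_j)` for the indices `(j, true)`, `(j, false)`. -/
noncomputable def deviation {k : ℕ} (ξ : Fin r → ℤ) (c : Index m r n → ℤ) (t : Fin k → ℝ) (x : ℕ) :
    Option (Fin k × Bool) → ℝ
  | none => √2 * (nagaoSeries ξ c x (1 / 2) + r * primeSeries x (1 / 2)).re
  | some (j, true) => 2 * (nagaoSeries ξ c x (1 / 2 + t j * Complex.I) + r * primeSeries x (1 / 2 + t j * Complex.I)).re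
  | some (j, false) => 2 * (nagaoSeries ξ c x (1 / 2 + t j * Complex.I) + r * primeSeries x (1 / 2 + t j * Complex.I)).im

/-- The time of `x`. -/
noncomputable def time (T x : ℕ) : ℝ := (Real.log x / Real.log T) ^ 2

/-- The paths up to `T`: the polygonal path with the value `deviation ξ c t x o / log T` at the time `(log x / log T) ^ 2` for the
integers `1 ≤ x ≤ T`, linear in between. -/
noncomputable def path {k : ℕ} (ξ : Fin r → ℤ) (c : Index m r n → ℤ) (t : Fin k → ℝ) (T : ℕ) (o : Option (Fin k × Bool)) :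
    C(unitInterval, ℝ) where
  toFun u := (deviation ξ c t 1 o + ∑ x ∈ Finset.Ico 1 T, (deviation ξ c t (x + 1) o - deviation ξ c t x o) *
    max 0 (min 1 ((u - time T x) / (time T (x + 1) - time T x)))) / Real.log T
  continuous_toFun := by fun_prop

/-- The mean value of `f` over the integer vectors `c` with coordinates of absolute value at most `H`. -/
noncomputable def boxMean (H : ℕ) (f : (Index m r n → ℤ) → ℝ) : ℝ :=
  (∑ c ∈ Fintype.piFinset (fun _ : Index m r n => Finset.Icc (-(H : ℤ)) H), f c) /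
    (2 * H + 1 : ℝ) ^ ((m + r) * (n + 1))

/-- The path of `B` on `[0, 1]` as a continuous function (and `0` if it is not continuous). -/
noncomputable def unitPath {Ω : Type} (B : ℝ≥0 → Ω → ℝ) (ω : Ω) : C(unitInterval, ℝ) :=
  ContinuousMap.mkD (fun t : unitInterval => B ⟨(t : ℝ), t.2.1⟩ ω) 0

theorem card_index : Fintype.card (Index m r n) = (m + r) * (n + 1) := by
  simp [Index, Fintype.card_prod, Fintype.card_sum]

open Pool.Agent.U62.NG in
theorem rhs_eq {R : Type} [CommRing R] (ξ : Fin r → R) (c : Index m r n → R) (t x : R) :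
    rhs ξ c t x = Fv ξ (fun k => coeff c k t) x := rfl

open Pool.Agent.U62.NG Pool.Agent.N647.NG in
theorem points_eq (ξ : Fin r → ℤ) (c : Index m r n → ℤ) (p t : ℕ) [hp : Fact p.Prime] (h2 : p ≠ 2) :
    (points ξ c p t : ℝ) = p + sv (fun i => ((ξ i : ℤ) : ZMod p))
      (vt (Pool.Agent.Y722.HS.red p c) (t : ZMod p)) := by
  have hr : ringChar (ZMod p) ≠ 2 := by rwa [ZMod.ringChar_zmod_n]
  unfold points
  have e1 : {P : ZMod p × ZMod p // P.2 ^ 2 = rhs (fun i => (ξ i : ZMod p)) (fun k => (c k : ZMod p)) (t : ZMod p) P.1} ≃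
      Σ x : ZMod p, {y : ZMod p // y ^ 2 = rhs (fun i => (ξ i : ZMod p)) (fun k => (c k : ZMod p)) (t : ZMod p) x} :=
    { toFun := fun P => ⟨P.1.1, P.1.2, P.2⟩
      invFun := fun Q => ⟨(Q.1, Q.2.1), Q.2.2⟩
      left_inv := fun _ => rfl
      right_inv := fun _ => rfl }
  rw [Nat.card_congr e1, Nat.card_sigma]
  push_cast
  simp only [card_sqrt hr]
  rw [Finset.sum_add_distrib, Finset.sum_const, card_univ, ZMod.card, nsmul_eq_mul, mul_one]
  rfl

theorem sq_two : ∀ y : ZMod 2, y ^ 2 = y := by decide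

theorem points_two (ξ : Fin r → ℤ) (c : Index m r n → ℤ) (t : ℕ) : points ξ c 2 t = 2 := by
  unfold points
  have e1 : {P : ZMod 2 × ZMod 2 // P.2 ^ 2 = rhs (fun i => (ξ i : ZMod 2)) (fun k => (c k : ZMod 2)) (t : ZMod 2) P.1} ≃
      ZMod 2 :=
    { toFun := fun P => P.1.1
      invFun := fun x => ⟨(x, rhs (fun i => (ξ i : ZMod 2)) (fun k => (c k : ZMod 2)) (t : ZMod 2) x), sq_two _⟩
      left_inv := fun P => by
        apply Subtype.ext
        apply Prod.ext
        · rfl
        · show rhs _ _ _ P.1.1 = P.1.2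
          rw [← P.2, sq_two]
      right_inv := fun _ => rfl }
  rw [Nat.card_congr e1, Nat.card_zmod]

open Pool.Agent.U62.NG in
theorem average_eq (ξ : Fin r → ℤ) (c : Index m r n → ℤ) (p : ℕ) (hp : p.Prime) :
    fibreAverage ξ c p = UU (D := n + 1) ξ p (Pool.Agent.Y722.HS.red p c) := by
  unfold fibreAverage
  by_cases h2 : p = 2
  · subst h2
    simp only [points_two]
    unfold UU
    rw [dif_neg (fun h => h.2 rfl)]
    norm_num
  · have : Fact p.Prime := ⟨hp⟩
    rw [UU_eq ξ p h2]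
    congr 1
    have e : ∀ t : ℕ, (((p : ℝ) + 1) - ((points ξ c p t : ℝ) + 1)) =
        -(sv (fun i => ((ξ i : ℤ) : ZMod p)) (vt (Pool.Agent.Y722.HS.red p c) (t : ZMod p))) := by
      intro t
      rw [points_eq ξ c p t h2]
      ring
    simp only [e]
    rw [Finset.sum_neg_distrib]
    congr 1
    refine Finset.sum_bij (fun t _ => (t : ZMod p)) (fun _ _ => mem_univ _) ?_ ?_ fun _ _ => rfl
    · intro a ha b hb hab
      rw [ZMod.natCast_eq_natCast_iff] at hab
      exact Nat.ModEq.eq_of_lt_of_lt hab (mem_range.1 ha) (mem_range.1 hb)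
    · intro z _
      exact ⟨z.val, mem_range.2 (ZMod.val_lt z), ZMod.natCast_zmod_val z⟩

open Pool.Agent.U62.NG in
theorem UU_bound {D g : ℕ} (hg : m + r = 2 * g + 1) (ξ : Fin r → ℤ) (p : ℕ) (hp : p.Prime)
    (c : (Fin m ⊕ Fin r) × Fin D → ZMod p) : |UU ξ p c| ≤ 2 * g * √p := by
  by_cases h2 : p = 2
  · subst h2
    unfold UU
    rw [dif_neg (fun h => h.2 rfl), abs_zero]
    positivity
  · have : Fact p.Prime := ⟨hp⟩
    have hr : ringChar (ZMod p) ≠ 2 := by rwa [ZMod.ringChar_zmod_n]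
    have hp0 : (0 : ℝ) < p := by exact_mod_cast hp.pos
    rw [UU_eq ξ p h2, abs_div, abs_neg, abs_of_pos hp0, div_le_iff₀ hp0]
    calc |∑ t : ZMod p, sv (fun i => ((ξ i : ℤ) : ZMod p)) (vt c t)|
        ≤ ∑ t : ZMod p, |sv (fun i => ((ξ i : ℤ) : ZMod p)) (vt c t)| := Finset.abs_sum_le_sum_abs _ _
      _ ≤ ∑ _t : ZMod p, 2 * g * √p := by
          refine Finset.sum_le_sum fun t _ => ?_
          have := sv_le hr hg (fun i => ((ξ i : ℤ) : ZMod p)) (vt c t)
          rwa [ZMod.card] at this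
      _ = _ := by
          rw [Finset.sum_const, card_univ, ZMod.card, nsmul_eq_mul]
          ring

open Pool.Agent.U62.NG Pool.Agent.U62.CL in
theorem series_eq (ξ : Fin r → ℤ) (c : Index m r n → ℤ) (x : ℕ) (t : ℝ) :
    nagaoSeries ξ c x (1 / 2 + t * Complex.I) + r * primeSeries x (1 / 2 + t * Complex.I) =
      DD (UU (D := n + 1) ξ) (-r) x t c := by
  unfold nagaoSeries primeSeries DD
  rw [Finset.mul_sum, ← Finset.sum_add_distrib]
  refine Finset.sum_congr rfl fun p hp => ?_
  rw [average_eq ξ c p (Finset.mem_filter.1 hp).2]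
  push_cast
  ring

open Pool.Agent.U581.WW Pool.Agent.U62.NG Pool.Agent.U62.CL in
theorem deviation_sum {k : ℕ} (ξ : Fin r → ℤ) (c : Index m r n → ℤ) (t : Fin k → ℝ) (x : ℕ) (o : Option (Fin k × Bool)) :
    deviation ξ c t x o = √2 * ∑ p ∈ PT x, wo t o p * (UU (D := n + 1) ξ p (Pool.Agent.Y722.HS.red p c) - -(r : ℝ)) := by
  have hs2 : (√2 : ℝ) * √2 = 2 := Real.mul_self_sqrt (by norm_num)
  rcases o with _ | ⟨j, b⟩
  · have e : (1 / 2 : ℂ) = 1 / 2 + ((0 : ℝ) : ℂ) * Complex.I := by simp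
    unfold deviation
    rw [e, series_eq, DD_re]
    congr 1
  · cases b
    · change 2 * (nagaoSeries ξ c x (1 / 2 + t j * Complex.I) + r * primeSeries x (1 / 2 + t j * Complex.I)).im = _
      rw [series_eq, DD_im, Finset.mul_sum, Finset.mul_sum]
      refine Finset.sum_congr rfl fun p _ => ?_
      unfold wo
      calc 2 * (2 * ww (t j) false p * (UU (D := n + 1) ξ p (Pool.Agent.Y722.HS.red p c) - -(r : ℝ))) =
          (√2 * √2) * (2 * ww (t j) false p * (UU (D := n + 1) ξ p (Pool.Agent.Y722.HS.red p c) - -(r : ℝ))) := by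
            rw [hs2]
        _ = _ := by ring
    · change 2 * (nagaoSeries ξ c x (1 / 2 + t j * Complex.I) + r * primeSeries x (1 / 2 + t j * Complex.I)).re = _
      rw [series_eq, DD_re, Finset.mul_sum, Finset.mul_sum]
      refine Finset.sum_congr rfl fun p _ => ?_
      unfold wo
      calc 2 * (2 * ww (t j) true p * (UU (D := n + 1) ξ p (Pool.Agent.Y722.HS.red p c) - -(r : ℝ))) =
          (√2 * √2) * (2 * ww (t j) true p * (UU (D := n + 1) ξ p (Pool.Agent.Y722.HS.red p c) - -(r : ℝ))) := by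
            rw [hs2]
        _ = _ := by ring

open Pool.Agent.U581.WW Pool.Agent.U62.NG Pool.Agent.U62.CL in
theorem deviation_step {k : ℕ} (ξ : Fin r → ℤ) (c : Index m r n → ℤ) (t : Fin k → ℝ) {T x : ℕ} (hx : x < T)
    (o : Option (Fin k × Bool)) : deviation ξ c t (x + 1) o - deviation ξ c t x o =
      √2 * on (PT T) (fun p => wo t o p * (UU (D := n + 1) ξ p (Pool.Agent.Y722.HS.red p c) - -(r : ℝ))) (x + 1) := by
  rw [deviation_sum, deviation_sum, ← mul_sub]
  congr 1
  unfold on PT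
  rw [Finset.sum_filter, Finset.sum_filter, Finset.sum_range_succ, add_sub_cancel_left]
  by_cases h : (x + 1).Prime
  · rw [if_pos h, if_pos (by
      rw [Finset.mem_filter, Finset.mem_range]
      exact ⟨by omega, h⟩)]
  · rw [if_neg h, if_neg (fun h' => h (Finset.mem_filter.1 h').2)]

open Pool.Agent.U581.WW Pool.Agent.U62.NG Pool.Agent.U62.CL in
theorem deviation_one {k : ℕ} (ξ : Fin r → ℤ) (c : Index m r n → ℤ) (t : Fin k → ℝ) (o : Option (Fin k × Bool)) :
    deviation ξ c t 1 o = 0 := by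
  rw [deviation_sum]
  have e : PT 1 = ∅ := by
    unfold PT
    refine Finset.filter_false_of_mem fun p hp => ?_
    rw [Finset.mem_range] at hp
    intro h
    have := h.two_le
    omega
  rw [e, Finset.sum_empty, mul_zero]

/-- **The series of Nagao on the critical line as processes.** Let `m ≥ 2`, `m + r = 2 g + 1`, `n ≥ 3`, and
let `ξ_1, ..., ξ_r` be different integers. The fibration `Y² = rhs ξ c T X` has the sections `X = ξ_i`,
`Y = ∏_{j ≠ i} (ξ_i - ξ_j) η_i(T)`. For all different `t_1, ..., t_k > 0`, all independent Brownian motions `B_o` (`o = none`, `(j, true)`,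
`(j, false)`), every bounded continuous function `F` on the space of the tuples of functions in `C[0, 1]` and `ε > 0` there is
a `K` such that for all `T ≥ K` and `H ≥ T ^ K` the mean value of `F` of the paths of `√2 D_x(1/2) / log T`,
`2 Re D_x(1/2 + i t_j) / log T`, `2 Im D_x(1/2 + i t_j) / log T`, `x ≤ T`, over the integer coefficients `|c_i| ≤ H` differs from
the mean value of `F (B)` by at most `ε`. -/
theorem result (m r n g : ℕ) (hm : 2 ≤ m) (hg : m + r = 2 * g + 1) (hn : 3 ≤ n) (ξ : Fin r → ℤ)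
    (hξ : Function.Injective ξ) :
    (∀ (c : Index m r n → ℤ) (t : ℤ) (i : Fin r),
      ((∏ j ∈ univ.erase i, (ξ i - ξ j)) * coeff c (Sum.inr i) t) ^ 2 = rhs ξ c t (ξ i)) ∧
    ∀ (k : ℕ) (t : Fin k → ℝ), (∀ j, 0 < t j) → Function.Injective t →
      ∀ (Ω : Type) [MeasurableSpace Ω] (μ : Measure Ω) [IsProbabilityMeasure μ]
        (B : Option (Fin k × Bool) → ℝ≥0 → Ω → ℝ),
        (∀ o, IsBrownianReal (B o) μ) → iIndepFun (fun o ω s => B o s ω) μ →
        ∀ (F : (Option (Fin k × Bool) → C(unitInterval, ℝ)) →ᵇ ℝ) (ε : ℝ), 0 < ε →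
          ∃ K : ℕ, ∀ T H : ℕ, K ≤ T → T ^ K ≤ H →
            |boxMean H (fun c : Index m r n → ℤ => F (path ξ c t T)) - ∫ ω, F (fun o => unitPath (B o) ω) ∂μ| ≤ ε := by
  obtain ⟨C, hC⟩ := Pool.Agent.U62.NG.ld_UU (D := n + 1) (by omega) hm hg hξ
  refine ⟨fun c t i => ?_, ?_⟩
  · rw [rhs_eq, Pool.Agent.U62.NG.Fv_mark]
    rfl
  · intro k t ht hinj Ω _ μ _ B hB hI F ε hε
    let _ : MeasurableSpace C(unitInterval, ℝ) := borel _
    have _ : BorelSpace C(unitInterval, ℝ) := ⟨rfl⟩
    have hbd := fun (p : ℕ) (hp : p.Prime) x => UU_bound (D := n + 1) hg ξ p hp x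
    obtain ⟨K, hK⟩ := Pool.Agent.U581.WW.crit_proc hC hbd ht hinj hB hI F hε
    refine ⟨K, fun T H hT hH => ?_⟩
    have h1 := hK T H hT hH
    unfold Pool.Agent.Y722.HS.EB at h1
    rw [card_index] at h1
    refine le_trans (le_of_eq ?_) h1
    congr 2
    unfold boxMean
    congr 1
    refine Finset.sum_congr rfl fun c _ => ?_
    change F _ = F _
    congr 1
    funext o
    refine ContinuousMap.ext fun u => ?_
    change (deviation ξ c t 1 o + ∑ x ∈ Finset.Ico 1 T, (deviation ξ c t (x + 1) o - deviation ξ c t x o) *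
      max 0 (min 1 ((u - time T x) / (time T (x + 1) - time T x)))) / Real.log T =
      (∑ x ∈ Finset.Ico 1 T, Pool.Agent.U581.WW.on (Pool.Agent.U62.CL.PT T) (fun p =>
        Pool.Agent.U581.WW.wo t o p *
          (Pool.Agent.U62.NG.UU (D := n + 1) ξ p (Pool.Agent.Y722.HS.red p c) - -(r : ℝ))) (x + 1) *
        max 0 (min 1 ((u - time T x) / (time T (x + 1) - time T x)))) / (Real.log T / √2)
    rw [deviation_one, zero_add, div_div_eq_mul_div]
    congr 1
    rw [Finset.sum_mul]
    refine Finset.sum_congr rfl fun x hx => ?_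
    rw [deviation_step ξ c t (Finset.mem_Ico.1 hx).2]
    ring

end Pool.Agent.Results.MP_3d3918_nt.CriticalLineProcess
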