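import Pool.Agent.N647.NG.AnaT
import Pool.Agent.N647.NG.Expl

/-!
# The analytic Nagao conjecture in the half plane `Re z > 1 / 2` for almost all members of thin sequences of fibrations

Let `K` be a number field, `F₀` and `h_1, ..., h_D` polynomials in `t = (t_1, ..., t_m)`, `m ≥ 1`, and `x` over its ring of
integers, `F₀` monic of odd degree in `x`, and the `h_i` of smaller degree in `x`.  We study the fibrations over the affine space
with the coordinates `t` (an open part of `ℙ^m`) whose fibres are the curves `y² = F_c(t, x)`, `F_c = F₀ + ∑ c_i h_i`, with one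
point at infinity.  The trace of the Frobenius on `H¹` of the (smooth projective) curve `y² = f(x)`, `f` of odd degree, over the
field with `q_v` elements is `q_v` minus the number of its affine points, and the average of these traces over all `t` over the
residue field is the number `𝔄_v` of the problem (the singular fibres, the points of `ℙ^m` at infinity and the finitely many bad
primes change `𝔄_v` by `O(q_v ^ (-1/2))`, which plays no role in the half plane `Re z > 1 / 2`).

According to the problem the series `∑ 𝔄_v log(q_v) q_v ^ (-z)` has the residue `- rank J(K(t))` at `z = 1` if the Chow trace of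
the Jacobian `J` of the generic fibre vanishes.  If the base locus of the `h_i` consists of `r` sections over which `F₀` is a
square, then the members have `r` explicit points over `K(t)`.

The coefficients are `c_i = ∑ ⌊P_(i,j)(s)⌋ ω_j` where the `P_(i,j)` are generalised polynomials (sums of real powers) and `s` is an
integer, or a prime: there is one parameter `s` only.  We show that for very few exceptions `s` the Dirichlet polynomials
`∑ w(v) (𝔄_v + r) log(q_v) q_v ^ (-z)` over the prime ideals (of all degrees) with `T₁ < q_v ≤ T₂` are at most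
`T₁ ^ (1 / 2 + δ - Re z)` in the half plane `Re z ≥ 1 / 2 + δ` for `|Im z| ≤ T₁ ^ B`, with arbitrary weights (for example
characters) from a set of at most `y ^ B` weights, without an arbitrary set of bad primes, for all `T₁ ≤ T₂` between `y` and
`N ^ κ`: as if the series of the problem, and all its twists, differed from those of `- r` by a function which is holomorphic and
of subpolynomial growth for `Re z > 1 / 2`.

Method (library `Pool.Agent.N647.NG`): by exponential sums the vectors of the integer parts are uniformly distributed modulo all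
moduli up to a power of `N`, over the integers and over the primes; high moments of sums of local functions which are as large as
`√q_v` (the bound of Weil) but have bounded second moments; discretisation in `z`.
-/

set_option autoImplicit false

namespace Pool.Agent.Results.MP_3d3918_nt.ThinSequences

open Finset Polynomial NumberField IsDedekindDomain

section
variable {K : Type} [Field K] [NumberField K] {m D g : ℕ}

/-- The coefficients `c_i = ∑ n_(i,j) ω_j`. -/
def coeff (ω : Fin g → 𝓞 K) (n : Fin (D * g) → ℕ) (i : Fin D) : 𝓞 K := ∑ j, (n (finProdFinEquiv (i, j)) : 𝓞 K) * ω j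

/-- The polynomial `F_c = F₀ + ∑ c_i h_i`, in the variable `x` over the ring of the polynomials in `t_1, ..., t_m`. -/
noncomputable def member (F₀ : (MvPolynomial (Fin m) (𝓞 K))[X]) (h : Fin D → (MvPolynomial (Fin m) (𝓞 K))[X])
    (c : Fin D → 𝓞 K) : (MvPolynomial (Fin m) (𝓞 K))[X] := F₀ + ∑ i, C (MvPolynomial.C (c i)) * h i

/-- The residue field of the prime ideal `v`. -/
abbrev Residue (v : HeightOneSpectrum (𝓞 K)) : Type := 𝓞 K ⧸ v.asIdeal

/-- The absolute norm `q_v`. -/
noncomputable def norm (v : HeightOneSpectrum (𝓞 K)) : ℝ := Ideal.absNorm v.asIdeal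

/-- The polynomial `F(t, x)` in `x` over the residue field of `v`, for a point `t` over the residue field: the fibre over `t` is
the curve `y² = F(t, x)`. -/
noncomputable def fibre (v : HeightOneSpectrum (𝓞 K)) (F : (MvPolynomial (Fin m) (𝓞 K))[X]) (t : Fin m → Residue v) :
    (Residue v)[X] :=
  F.map (MvPolynomial.eval₂Hom (Ideal.Quotient.mk v.asIdeal) t)

/-- The trace of the Frobenius on `H¹` of the curve `y² = f(x)` over the residue field, with `f` of odd degree and without multiple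
zeros: `q_v` minus the number of its affine points (there is one point at infinity). -/
noncomputable def traceOne (v : HeightOneSpectrum (𝓞 K)) (f : (Residue v)[X]) : ℝ :=
  norm v - Nat.card {P : Residue v × Residue v // P.2 ^ 2 = f.eval P.1}

/-- The average `𝔄_v` of the traces on `H¹` of the fibres over all points `t` of the affine space over the residue field. -/
noncomputable def average (F : (MvPolynomial (Fin m) (𝓞 K))[X]) (v : HeightOneSpectrum (𝓞 K)) : ℝ :=
  (∑ᶠ t : Fin m → Residue v, traceOne v (fibre v F t)) / norm v ^ m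

/-- The Dirichlet polynomial `∑ w(v) (𝔄_v + r) log(q_v) q_v ^ (-z)` over the prime ideals `v ∉ R` with `T₁ < q_v ≤ T₂`. -/
noncomputable def dirichlet (F : (MvPolynomial (Fin m) (𝓞 K))[X]) (r : ℝ) (w : HeightOneSpectrum (𝓞 K) → ℝ) (T₁ T₂ : ℕ)
    (R : Set (HeightOneSpectrum (𝓞 K))) (z : ℂ) : ℂ :=
  ∑ᶠ v ∈ {v : HeightOneSpectrum (𝓞 K) | T₁ < Ideal.absNorm v.asIdeal ∧ Ideal.absNorm v.asIdeal ≤ T₂ ∧ v ∉ R},
    ((w v * ((average F v + r) * Real.log (norm v)) : ℝ) : ℂ) * (norm v : ℂ) ^ (-z)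

/-- The value `F(t, x)` at the point `P = (t, x)` over the residue field of `v`. -/
noncomputable def val (v : HeightOneSpectrum (𝓞 K)) (F : (MvPolynomial (Fin m) (𝓞 K))[X])
    (P : (Fin m → Residue v) × Residue v) : Residue v :=
  (fibre v F P.1).eval P.2

/-- The values `h_i(P)` at a point `P` over the residue field outside the base locus are not a multiple of the values `h_i(Q)` at
another point `Q`. -/
def Separated (v : HeightOneSpectrum (𝓞 K)) (h : Fin D → (MvPolynomial (Fin m) (𝓞 K))[X]) : Prop :=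
  ∀ P Q : (Fin m → Residue v) × Residue v, P ≠ Q → (∃ i, val v (h i) P ≠ 0) →
    ¬ ∃ l : Residue v, ∀ i, val v (h i) P = l * val v (h i) Q

/-- The number of the points `P` over the residue field in the base locus (the common zeros of the `h_i`). -/
noncomputable def basePoints (v : HeightOneSpectrum (𝓞 K)) (h : Fin D → (MvPolynomial (Fin m) (𝓞 K))[X]) : ℝ :=
  Nat.card {P : (Fin m → Residue v) × Residue v // ∀ i, val v (h i) P = 0}

/-- The number of the points `(P, y)` over the residue field with `P` in the base locus and `y² = F₀(P)`. -/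
noncomputable def coverPoints (v : HeightOneSpectrum (𝓞 K)) (F₀ : (MvPolynomial (Fin m) (𝓞 K))[X])
    (h : Fin D → (MvPolynomial (Fin m) (𝓞 K))[X]) : ℝ :=
  Nat.card {P : ((Fin m → Residue v) × Residue v) × Residue v // (∀ i, val v (h i) P.1 = 0) ∧ P.2 ^ 2 = val v F₀ P.1}

end

/-- `c` is the largest exponent of the generalised polynomial `∑ a x s ^ x`, `x ∈ G`; it is positive and not an integer and has a
positive coefficient. -/
def Admissible (G : Finset ℝ) (a : ℝ → ℝ) (c : ℝ) : Prop :=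
  c ∈ G ∧ (∀ x ∈ G, x ≤ c) ∧ 0 < c ∧ (∀ n : ℕ, c ≠ n) ∧ 0 < a c

/-- The integer part `⌊P_j(s)⌋` of the value of the generalised polynomial number `j` (and `0` if the value is negative, which is
the case for finitely many `s` only). -/
noncomputable def value {d : ℕ} (G : Fin d → Finset ℝ) (a : Fin d → ℝ → ℝ) (s : ℕ) (j : Fin d) : ℕ :=
  ⌊∑ x ∈ G j, a j x * (s : ℝ) ^ x⌋₊

section
variable {K : Type} [Field K] [NumberField K] {m D g : ℕ}

/-- For all weights `w ∈ W` and all sets `R` of prime ideals which divide `Z(c)`, the Dirichlet polynomial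
`∑ w(v) (𝔄_v + r) log(q_v) q_v ^ (-z)` over the `v ∉ R` with `T₁ < q_v ≤ T₂` is at most `T₁ ^ (1 / 2 + δ - Re z)` in absolute value
for `y ≤ T₁ ≤ T₂ ≤ N ^ κ`, `Re z ≥ 1 / 2 + δ` and `|Im z| ≤ T₁ ^ B`. -/
def Good (ω : Fin g → 𝓞 K) (F₀ : (MvPolynomial (Fin m) (𝓞 K))[X]) (h : Fin D → (MvPolynomial (Fin m) (𝓞 K))[X])
    (r : ℝ) (Z : MvPolynomial (Fin D) (𝓞 K)) (δ κ : ℝ) (B y N : ℕ) (W : Set (HeightOneSpectrum (𝓞 K) → ℝ)) (n : Fin (D * g) → ℕ) :
    Prop :=
  ∀ w ∈ W, ∀ R : Set (HeightOneSpectrum (𝓞 K)), (∀ v ∈ R, MvPolynomial.eval (coeff ω n) Z ∈ v.asIdeal) →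
    ∀ T₁ T₂ : ℕ, y ≤ T₁ → T₁ ≤ T₂ → (T₂ : ℝ) ≤ (N : ℝ) ^ κ → ∀ z : ℂ, 1 / 2 + δ ≤ z.re → |z.im| ≤ (T₁ : ℝ) ^ B →
      ‖dirichlet (member F₀ h (coeff ω n)) r w T₁ T₂ R z‖ ≤ (T₁ : ℝ) ^ (1 / 2 + δ - z.re)

open Classical in
/-- For all generalised polynomials `P_j(s) = ∑ a j x s ^ x` with distinct leading exponents which are positive and not integers and
have positive coefficients, all `δ > 0`, `A`, `B` there are `κ > 0` and `y₀` such that for all `y ≥ y₀`, all `N` and all sets `W`
of at most `y ^ B` weights with values in `[-1, 1]`: the member with the numbers `n_j = ⌊P_j(s)⌋` is `Good` for all integers `s` in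
`(N, 2 N]` with at most `N / y ^ A` exceptions, and for all primes `s` in `(N, 2 N]` with the exception of at most a proportion
`1 / y ^ A` of them. -/
def Holds (ω : Fin g → 𝓞 K) (F₀ : (MvPolynomial (Fin m) (𝓞 K))[X]) (h : Fin D → (MvPolynomial (Fin m) (𝓞 K))[X])
    (r : ℝ) (Z : MvPolynomial (Fin D) (𝓞 K)) : Prop :=
  ∀ (G : Fin (D * g) → Finset ℝ) (a : Fin (D * g) → ℝ → ℝ) (c : Fin (D * g) → ℝ), (∀ j, Admissible (G j) (a j) (c j)) →
    Function.Injective c → ∀ δ : ℝ, 0 < δ → ∀ A B : ℕ,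
    ∃ κ : ℝ, 0 < κ ∧ ∃ y₀ : ℕ, ∀ y N : ℕ, y₀ ≤ y → ∀ W : Set (HeightOneSpectrum (𝓞 K) → ℝ),
      W.Finite → W.ncard ≤ y ^ B → (∀ w ∈ W, ∀ v, |w v| ≤ 1) →
      (((Ioc N (2 * N)).filter fun s => ¬ Good ω F₀ h r Z δ κ B y N W (value G a s)).card : ℝ) ≤ 1 / (y : ℝ) ^ A * N ∧
      ((((Ioc N (2 * N)).filter Nat.Prime).filter fun s => ¬ Good ω F₀ h r Z δ κ B y N W (value G a s)).card : ℝ) ≤
        1 / (y : ℝ) ^ A * ((Ioc N (2 * N)).filter Nat.Prime).card

lemma average_eq (F : (MvPolynomial (Fin m) (𝓞 K))[X]) (v : HeightOneSpectrum (𝓞 K)) :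
    average F v = Pool.Agent.N647.NG.AA (Pool.Agent.N647.NG.mkv v) F := by
  classical
  have hq : norm v = Nat.card (𝓞 K ⧸ v.asIdeal) := by
    unfold norm
    rw [Pool.Agent.N842.HS.norm_card]
  have : Finite (Residue v) := Ideal.finiteQuotientOfFreeOfNeBot v.asIdeal v.ne_bot
  have : Fintype (Residue v) := Fintype.ofFinite _
  have hpos : (0 : ℝ) < norm v := by
    rw [hq]
    exact_mod_cast Nat.card_pos
  have h1 : (Pool.Agent.N647.NG.pts (Pool.Agent.N647.NG.mkv v) F : ℝ) = ∑ t : Fin m → Residue v,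
      (Nat.card {P : Residue v × Residue v // P.2 ^ 2 = (fibre v F t).eval P.1} : ℝ) := by
    unfold Pool.Agent.N647.NG.pts
    have e : {P : (Fin m → Residue v) × Residue v × Residue v //
        P.2.2 ^ 2 = (Pool.Agent.N647.NG.ev (Pool.Agent.N647.NG.mkv v) P.1 F).eval P.2.1} ≃
        (Σ t : Fin m → Residue v, {P : Residue v × Residue v // P.2 ^ 2 = (fibre v F t).eval P.1}) :=
      { toFun := fun P => ⟨P.1.1, ⟨P.1.2, P.2⟩⟩
        invFun := fun Q => ⟨(Q.1, Q.2.1), Q.2.2⟩
        left_inv := fun P => rfl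
        right_inv := fun Q => rfl }
    rw [Nat.card_congr e, Nat.card_sigma]
    push_cast
    rfl
  unfold average Pool.Agent.N647.NG.AA
  rw [h1, finsum_eq_sum_of_fintype]
  unfold traceOne
  rw [sum_sub_distrib, sum_const, card_univ, nsmul_eq_mul, sub_div, ← hq]
  congr 1
  have h2 : (Fintype.card (Fin m → Residue v) : ℝ) = norm v ^ m := by
    rw [Fintype.card_pi, prod_const, card_univ, Fintype.card_fin, hq, Nat.card_eq_fintype_card]
    push_cast
    rfl
  rw [h2, mul_comm, mul_div_assoc, div_self (by positivity), mul_one]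

lemma dirichlet_eq (F : (MvPolynomial (Fin m) (𝓞 K))[X]) (r : ℝ) (w : HeightOneSpectrum (𝓞 K) → ℝ) (T₁ T₂ : ℕ)
    (R : Set (HeightOneSpectrum (𝓞 K))) (z : ℂ) [DecidablePred (fun v => v ∉ R ∧ T₁ < Ideal.absNorm v.asIdeal)] :
    dirichlet F r w T₁ T₂ R z = ∑ v ∈ (Pool.Agent.N842.HS.VT K T₂).filter (fun v => v ∉ R ∧ T₁ < Ideal.absNorm v.asIdeal),
      ((w v * ((Pool.Agent.N647.NG.AA (Pool.Agent.N647.NG.mkv v) F + r) *
        Real.log (Ideal.absNorm v.asIdeal)) : ℝ) : ℂ) * (Ideal.absNorm v.asIdeal : ℂ) ^ (-z) := by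
  classical
  have h1 : {v : HeightOneSpectrum (𝓞 K) | T₁ < Ideal.absNorm v.asIdeal ∧ Ideal.absNorm v.asIdeal ≤ T₂ ∧ v ∉ R} =
      (((Pool.Agent.N842.HS.VT K T₂).filter (fun v => v ∉ R ∧ T₁ < Ideal.absNorm v.asIdeal) : Finset (HeightOneSpectrum (𝓞 K))) :
        Set (HeightOneSpectrum (𝓞 K))) := by
    ext v
    rw [mem_coe, mem_filter, Pool.Agent.N842.HS.mem_VT]
    constructor
    · rintro ⟨h1, h2, h3⟩
      exact ⟨h2, h3, h1⟩
    · rintro ⟨h2, h3, h1⟩
      exact ⟨h1, h2, h3⟩
  unfold dirichlet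
  rw [h1, finsum_mem_coe_finset]
  refine sum_congr rfl fun v _ => ?_
  rw [average_eq]
  unfold norm
  push_cast
  rfl

lemma g_pos (ω : Fin g → 𝓞 K) (hω : Submodule.span ℤ (Set.range ω) = ⊤) : 1 ≤ g := by
  rcases Nat.eq_zero_or_pos g with h0 | h0
  · subst h0
    rw [Set.range_eq_empty, Submodule.span_empty] at hω
    have h1 : (1 : 𝓞 K) ∈ (⊥ : Submodule ℤ (𝓞 K)) := by
      rw [hω]
      exact Submodule.mem_top
    rw [Submodule.mem_bot] at h1
    exact absurd h1 one_ne_zero
  · exact h0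

theorem holds_main (hm : 1 ≤ m) (hD : 1 ≤ D) (ω : Fin g → 𝓞 K) (hω : Submodule.span ℤ (Set.range ω) = ⊤)
    (F₀ : (MvPolynomial (Fin m) (𝓞 K))[X]) (h : Fin D → (MvPolynomial (Fin m) (𝓞 K))[X])
    (hF : F₀.Monic) (ho : Odd F₀.natDegree) (hh : ∀ i, (h i).natDegree < F₀.natDegree) (r C₀ : ℝ)
    (S : Set (HeightOneSpectrum (𝓞 K))) (hS : S.Finite) (hs : ∀ v ∉ S, Separated v h)
    (hb : ∀ v ∉ S, |coverPoints v F₀ h - basePoints v h - r * norm v ^ m| ≤ C₀ * (norm v ^ m / Real.sqrt (norm v)))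
    (Z : MvPolynomial (Fin D) (𝓞 K)) (hZ : Z ≠ 0) : Holds ω F₀ h r Z := by
  classical
  intro G a c ha hc δ hδ A B
  obtain ⟨g', hg'⟩ := ho
  have hDg : 1 ≤ D * g := Nat.one_le_iff_ne_zero.2 (Nat.mul_ne_zero (by omega) (by have := g_pos ω hω; omega))
  obtain ⟨κ, hκ, y₀, h1⟩ := Pool.Agent.N647.NG.anaN hm F₀ h hF hg' (fun i => by rw [← hg']; exact hh i) r C₀ S hS hs hb Z hZ ω hω hDg
    (G := G) (a := a) (c := c) ha hc δ hδ A B
  refine ⟨κ, hκ, y₀, fun y N hy W hW hWc hW1 => ?_⟩
  refine h1 y N hy W hW hWc hW1 (fun n => Good ω F₀ h r Z δ κ B y N W n) fun n hn w hw R hR T₁ T₂ hyT hT hTN z hz1 hz2 => ?_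
  rw [dirichlet_eq]
  exact hn T₁ T₂ hyT hT hTN w hw R hR z hz1 hz2

end

section explicit
variable (K : Type) [Field K] [NumberField K] (d r e m : ℕ)

/-- `(x - 1) ⋯ (x - r)`. -/
noncomputable def linearFactors : (MvPolynomial (Fin (m + 1)) (𝓞 K))[X] :=
  ∏ j ∈ range r, (X - C (((j + 1 : ℕ) : MvPolynomial (Fin (m + 1)) (𝓞 K))))

/-- `(x - 1) ⋯ (x - r) x ^ (d - r) + t_1 ^ 2`. -/
noncomputable def fixedPart : (MvPolynomial (Fin (m + 1)) (𝓞 K))[X] :=
  linearFactors K r m * X ^ (d - r) + C (MvPolynomial.X 0 ^ 2)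

/-- The exponents `(a, α)` with `a < d - r` and `α_k ≤ e`, `1 ≤ k ≤ m + 1`. -/
abbrev Exponents : Type := Fin (d - r) × (Fin (m + 1) → Fin (e + 1))

/-- `(x - 1) ⋯ (x - r) x ^ a t ^ α` for `i = (a, α)`. -/
noncomputable def variablePart (i : Exponents d r e m) : (MvPolynomial (Fin (m + 1)) (𝓞 K))[X] :=
  linearFactors K r m * (X ^ (i.1 : ℕ) * C (∏ k, MvPolynomial.X k ^ (i.2 k : ℕ)))

end explicit

/-- **Part 1.** Let `K` be a number field, `m ≥ 1`, `ω_1, ..., ω_g` generators of the group `𝓞 K` (for example an integral basis), `F₀`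
a polynomial in `x` and `t = (t_1, ..., t_m)` over `𝓞 K` which is monic of odd degree in `x`, and `h_1, ..., h_D` polynomials of
smaller degree in `x`.  Suppose that for all but finitely many prime ideals `v` the `h_i` separate the points outside the base locus
over the residue field, and that the sum of the quadratic character of `F₀` over the base locus is `r q_v ^ m` up to
`O(q_v ^ (m - 1 / 2))` (for example if the base locus consists of `r` sections over which `F₀` is a square).  Then `Holds`, for every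
nonzero polynomial `Z`: the Dirichlet polynomials `∑ w(v) (𝔄_v + r) log(q_v) q_v ^ (-z)`, `T₁ < q_v ≤ T₂`, for the fibrations in the
curves `y² = F₀(t, x) + ∑ c_i h_i(t, x)` with `c_i = ∑ ⌊P_(i,j)(s)⌋ ω_j` are at most `T₁ ^ (1 / 2 + δ - Re z)` for
`y ≤ T₁ ≤ T₂ ≤ N ^ κ` and `Re z ≥ 1 / 2 + δ`, `|Im z| ≤ T₁ ^ B`, for almost all integers, and almost all primes, `s` in `(N, 2 N]`.

**Part 2.** This is the case for the families `y² = (x - 1) ⋯ (x - r) (x ^ (d - r) + G_c(t, x)) + t_1 ^ 2`, where `G_c` is the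
polynomial with all the monomials `x ^ a t ^ α` with `a < d - r` and `α_k ≤ e`, for odd `d ≥ r + 2` and `e ≥ 1`, over the base with
the coordinates `t_1, ..., t_(m + 1)`, `m ≥ 0`, which have the sections `(j, t_1)`, `1 ≤ j ≤ r` (`E` is an enumeration of the
monomials). -/
theorem result :
    (∀ (K : Type) [Field K] [NumberField K] (m D g : ℕ), 1 ≤ m → 1 ≤ D → ∀ ω : Fin g → 𝓞 K, Submodule.span ℤ (Set.range ω) = ⊤ →
      ∀ (F₀ : (MvPolynomial (Fin m) (𝓞 K))[X]) (h : Fin D → (MvPolynomial (Fin m) (𝓞 K))[X]),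
      F₀.Monic → Odd F₀.natDegree → (∀ i, (h i).natDegree < F₀.natDegree) → ∀ (r C₀ : ℝ) (S : Set (HeightOneSpectrum (𝓞 K))), S.Finite →
      (∀ v ∉ S, Separated v h) →
      (∀ v ∉ S, |coverPoints v F₀ h - basePoints v h - r * norm v ^ m| ≤ C₀ * (norm v ^ m / Real.sqrt (norm v))) →
      ∀ Z : MvPolynomial (Fin D) (𝓞 K), Z ≠ 0 → Holds ω F₀ h r Z) ∧
    (∀ (K : Type) [Field K] [NumberField K] (d r e m D g : ℕ), r + 2 ≤ d → Odd d → 1 ≤ e →
      ∀ ω : Fin g → 𝓞 K, Submodule.span ℤ (Set.range ω) = ⊤ → ∀ E : Fin D ≃ Exponents d r e m,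
      ∀ Z : MvPolynomial (Fin D) (𝓞 K), Z ≠ 0 →
        Holds ω (fixedPart K d r m) (fun i => variablePart K d r e m (E i)) r Z) := by
  refine ⟨fun K _ _ m D g hm hD ω hω F₀ h hF ho hh r C₀ S hS hs hb Z hZ => holds_main hm hD ω hω F₀ h hF ho hh r C₀ S hS hs hb Z hZ,
    fun K _ _ d r e m D g hd ho he ω hω E Z hZ => ?_⟩
  have hD : 1 ≤ D := by
    by_contra hcon
    have h0 : D = 0 := by omega
    subst h0
    exact (E.symm (⟨0, by omega⟩, fun _ => 0)).elim0
  obtain ⟨h2, h3⟩ := Pool.Agent.N647.NG.Fe_deg (𝓞 K) d r m (by omega)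
  refine holds_main (by omega) hD ω hω _ _ h2 ?_ (fun i => ?_) r r _ (Pool.Agent.N647.NG.finite_e r) (fun v _ => ?_) (fun v hv => ?_) Z hZ
  · rw [h3]
    exact ho
  · rw [h3]
    exact Pool.Agent.N647.NG.he_deg (𝓞 K) d r e m (by omega) (E i)
  · exact Pool.Agent.N647.NG.sepV_e d r e m D E hd he v
  · rw [Set.mem_union, not_or] at hv
    exact Pool.Agent.N647.NG.base_e d r e m D E hd v hv.1 hv.2

end Pool.Agent.Results.MP_3d3918_nt.ThinSequences
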